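import Pool.Agent.PQP.StmtsV

/-!
# PQP, row KWA: the Kazdan-Warner identity from the virial identity
-/

set_option autoImplicit false

open scoped InnerProductSpace Topology ContDiff Manifold
open MeasureTheory Filter Set

noncomputable section

namespace Pool.Agent.PQP.H83

open Pool.Agent.Helper42_Paneitz Pool.Agent.Helper82_Vir Pool.Agent.FLX Pool.Agent.PQP

theorem sm_logK {W : S4 → ℝ} (hW : Sm W) (h0 : ∀ x, 0 < W x) :
    Sm (fun x => Real.log (W x)) := by
  intro y hy
  have h1 : radialExt (fun x => Real.log (W x)) =ᶠ[𝓝 y] fun z => Real.log (radialExt W z) := by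
    filter_upwards [eventually_ne_zero hy] with z hz
    simp only [radialExt_apply _ hz]
  have h2 : radialExt W y ≠ 0 := by
    rw [radialExt_apply _ hy]
    exact (h0 _).ne'
  exact ((hW y hy).log h2).congr_of_eventuallyEq h1

theorem kwa (hVIR : VirStmt) : KwaStmt := by
  intro W f a A hW h0 hS hA
  have hfc : Continuous f := hS.1.1
  have hf1 : ∫ y, f y ∂sig = 1 := hS.1.2.2
  have hV := smV_cf a A
  have hvir := hVIR W f (cf a A) hW h0 hS hV (cf_tangent a hA)
  have hac : Continuous fun x : S4 => ⟪a, (x : E5)⟫_ℝ := continuous_of_sm (sm_inner a)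
  have hafc : Continuous fun x : S4 => ⟪a, (x : E5)⟫_ℝ * f x := hac.fun_mul hfc
  set M : ℝ := ∫ x : S4, ⟪a, (x : E5)⟫_ℝ * f x ∂sig with hM
  have hin : ∀ x : S4, ∫ y : S4, ⟪cf a A x - cf a A y, (x : E5) - (y : E5)⟫_ℝ /
      ‖(x : E5) - (y : E5)‖ ^ 2 * (f x * f y) ∂sig =
      -(1 / 2) * (⟪a, (x : E5)⟫_ℝ * f x) - (1 / 2) * M * f x := by
    intro x
    have e1 : ∫ y : S4, ⟪cf a A x - cf a A y, (x : E5) - (y : E5)⟫_ℝ /
      ‖(x : E5) - (y : E5)‖ ^ 2 * (f x * f y) ∂sig =
      ∫ y : S4, (-(1 / 2) * (⟪a, (x : E5)⟫_ℝ * f x) * f y -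
        (1 / 2) * f x * (⟪a, (y : E5)⟫_ℝ * f y)) ∂sig := by
      refine integral_congr_ae ?_
      filter_upwards [ae_ne x] with y hy
      have hn : ‖(x : E5) - (y : E5)‖ ^ 2 ≠ 0 := by
        have : (x : E5) - (y : E5) ≠ 0 := sub_ne_zero.2 fun h => hy (Subtype.ext h).symm
        positivity
      rw [cf_pair a hA, mul_div_assoc, div_self hn]
      ring
    rw [e1, integral_sub ((integrable_cont hfc).const_mul _) ((integrable_cont hafc).const_mul _),
      integral_const_mul, integral_const_mul, hf1]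
    ring
  simp only [hin] at hvir
  rw [integral_sub ((integrable_cont hafc).const_mul _) ((integrable_cont hfc).const_mul _),
    integral_const_mul, integral_const_mul, hf1] at hvir
  have hdc : Continuous fun x => dlog W x (cf a A x) * f x :=
    (continuous_dd_field (sm_logK hW h0) hV.continuous).fun_mul hfc
  have e2 : ∀ x, (dlog W x (cf a A x) + dv (cf a A) x) * f x =
      dlog W x (cf a A x) * f x - 4 * (⟪a, (x : E5)⟫_ℝ * f x) := by
    intro x
    rw [dv_cf a hA]
    ring
  simp only [e2] at hvir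
  rw [integral_sub (integrable_cont hdc) ((integrable_cont hafc).const_mul 4),
    integral_const_mul] at hvir
  linarith

end Pool.Agent.PQP.H83
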