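import Pool.Agent.PQP.StmtsV

/-!
# PQP, rows VIR and KWA: the virial identity and the Kazdan-Warner identity
-/

set_option autoImplicit false

open scoped InnerProductSpace Topology ContDiff Manifold
open MeasureTheory Filter Set

noncomputable section

namespace Pool.Agent.PQP.H83

open Pool.Agent.Helper42_Paneitz Pool.Agent.Helper82_Vir Pool.Agent.FLX Pool.Agent.PQP

/-- dominated convergence for bounded measurable kernels -/
theorem tendsto_cr_int' {φ : S4 → S4 → ℝ}
    (hφ : StronglyMeasurable fun p : S4 × S4 => φ p.1 p.2) {C : ℝ} (hC : ∀ x y, |φ x y| ≤ C) :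
    Tendsto (fun r => ∫ x, ∫ y, cr r x y * φ x y ∂sig ∂sig) (𝓝[<] 1)
      (𝓝 (∫ x, ∫ y, φ x y ∂sig ∂sig)) := by
  have hjc : ∀ r : ℝ, 0 < r → r < 1 →
      StronglyMeasurable fun p : S4 × S4 => cr r p.1 p.2 * φ p.1 p.2 :=
    fun r h0 h1 => (continuous_cr h0 h1).stronglyMeasurable.mul hφ
  have hb : ∀ r : ℝ, 0 < r → r < 1 → ∀ x y, ‖cr r x y * φ x y‖ ≤ 2 * C := by
    intro r h0 h1 x y
    rw [norm_mul, Real.norm_of_nonneg (cr_nonneg h0 h1 x y)]
    exact mul_le_mul (cr_le h0 h1 x y) (hC x y) (norm_nonneg _) (by norm_num)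
  refine tendsto_integral_filter_of_dominated_convergence (fun _ => 2 * C * msig) ?_ ?_
    (integrable_const _) (Eventually.of_forall fun x => ?_)
  · filter_upwards [ev_pos] with r hr
    exact (StronglyMeasurable.integral_prod_right (f := fun x y => cr r x y * φ x y)
      (hjc r hr.1 hr.2)).aestronglyMeasurable
  · filter_upwards [ev_pos] with r hr
    refine Eventually.of_forall fun x => ?_
    refine (norm_integral_le_of_norm_le (integrable_const (2 * C))
      (Eventually.of_forall (hb r hr.1 hr.2 x))).trans ?_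
    rw [integral_const_sig, mul_comm]
  · refine tendsto_integral_filter_of_dominated_convergence (fun _ => 2 * C) ?_ ?_
      (integrable_const _) ?_
    · filter_upwards [ev_pos] with r hr
      exact ((hjc r hr.1 hr.2).comp_measurable measurable_prodMk_left).aestronglyMeasurable
    · filter_upwards [ev_pos] with r hr
      exact Eventually.of_forall (hb r hr.1 hr.2 x)
    · filter_upwards [ae_ne x] with y hy
      have := (tendsto_cr hy).mul_const (φ x y)
      simpa using this

/-- the kernel of the virial identity -/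
def kv (V : S4 → E5) (x y : S4) : ℝ :=
  ⟪V x - V y, (x : E5) - (y : E5)⟫_ℝ / ‖(x : E5) - (y : E5)‖ ^ 2

theorem kv_symm (V : S4 → E5) (x y : S4) : kv V y x = kv V x y := by
  unfold kv
  rw [← neg_sub (V x), ← neg_sub (x : E5), inner_neg_neg, norm_neg]

theorem kv_bound {V : S4 → E5} {L : ℝ} (hL0 : 0 ≤ L)
    (hL : ∀ x y : S4, ‖V x - V y‖ ≤ L * ‖(x : E5) - (y : E5)‖) (x y : S4) : |kv V x y| ≤ L := by
  unfold kv
  rw [abs_div, abs_of_nonneg (sq_nonneg ‖(x : E5) - (y : E5)‖)]
  refine div_le_of_le_mul₀ (sq_nonneg _) hL0 ?_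
  refine (abs_real_inner_le_norm _ _).trans ?_
  have := mul_le_mul_of_nonneg_right (hL x y) (norm_nonneg ((x : E5) - (y : E5)))
  nlinarith

theorem kv_meas {V : S4 → E5} (hV : Continuous V) :
    Measurable fun p : S4 × S4 => kv V p.1 p.2 := by
  unfold kv
  have h1 : Continuous fun p : S4 × S4 => ⟪V p.1 - V p.2, (p.1 : E5) - (p.2 : E5)⟫_ℝ := by
    refine Continuous.inner ?_ ?_
    · exact (hV.comp continuous_fst).sub (hV.comp continuous_snd)
    · exact (continuous_subtype_val.comp continuous_fst).sub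
        (continuous_subtype_val.comp continuous_snd)
  have h2 : Continuous fun p : S4 × S4 => ‖(p.1 : E5) - (p.2 : E5)‖ ^ 2 :=
    (((continuous_subtype_val.comp continuous_fst).sub
      (continuous_subtype_val.comp continuous_snd)).norm).pow 2
  exact h1.measurable.div h2.measurable

/-- the identity for the field `V` and the potential `u` -/
theorem vir_key (f u : S4 → ℝ) (V : S4 → E5) (hf : Continuous f) (hu : Sm u) (hV : SmV V)
    (hVt : ∀ x : S4, ⟪(x : E5), V x⟫_ℝ = 0) (hP : ∀ x, paneitz u x + 6 = 6 * msig * f x) :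
    ∫ x, dd u x (f x • V x) ∂sig = - ∫ x, ∫ y, kv V x y * (f x * f y) ∂sig ∂sig := by
  have hVc := hV.continuous
  have hm := msig_pos
  obtain ⟨L, hL0, hL⟩ := smV_lipschitz hV
  obtain ⟨B, hB0, hB⟩ := exists_bound hf
  set Z : S4 → E5 := fun x => f x • V x with hZ
  have hZc : Continuous Z := hf.smul hVc
  have hZt : ∀ x : S4, ⟪(x : E5), Z x⟫_ℝ = 0 := by
    intro x; simp only [hZ, inner_smul_right, hVt x, mul_zero]
  have hT := tendsto_virial hu hZc hZt
  have hφm : StronglyMeasurable fun p : S4 × S4 => kv V p.1 p.2 * (f p.1 * f p.2) :=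
    ((kv_meas hVc).mul ((hf.comp continuous_fst).fun_mul (hf.comp continuous_snd)).measurable).stronglyMeasurable
  have hφb : ∀ x y : S4, |kv V x y * (f x * f y)| ≤ L * (B * B) := by
    intro x y
    rw [abs_mul, abs_mul]
    exact mul_le_mul (kv_bound hL0 hL x y) (mul_le_mul (hB x) (hB y) (abs_nonneg _) hB0)
      (by positivity) hL0
  have hC := tendsto_cr_int' (φ := fun x y => kv V x y * (f x * f y)) hφm hφb
  -- the regularised functional
  set k : ℝ → S4 → S4 → ℝ := fun r x y =>
    r * ⟪Z x, (y : E5)⟫_ℝ / (1 - r * ⟪(x : E5), (y : E5)⟫_ℝ) * (paneitz u y + 6) with hk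
  have hF : Continuous fun y => paneitz u y + 6 :=
    (continuous_of_sm hu.paneitz).fun_add continuous_const
  have hkc : ∀ r : ℝ, 0 < r → r < 1 → Continuous fun p : S4 × S4 => k r p.1 p.2 := by
    intro r h0 h1
    refine Continuous.fun_mul (Continuous.div ?_ ?_ fun p => (den_pos h0 h1 _ _).ne')
      (hF.comp continuous_snd)
    · exact continuous_const.fun_mul (continuous_inner_field hZc)
    · exact continuous_const.sub (continuous_const.fun_mul continuous_inner_S4)
  have hrel : ∀ r : ℝ, 0 < r → r < 1 → ∫ x, ∫ y, k r x y ∂sig ∂sig =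
      (- (6 * msig)) * ∫ x, ∫ y, cr r x y * (kv V x y * (f x * f y)) ∂sig ∂sig := by
    intro r h0 h1
    have hsw : ∫ x, ∫ y, k r x y ∂sig ∂sig = ∫ x, ∫ y, k r y x ∂sig ∂sig :=
      integral_integral_swap (f := k r) (integrable2 (hkc r h0 h1))
    have hkc' : Continuous fun p : S4 × S4 => k r p.2 p.1 :=
      (hkc r h0 h1).comp (continuous_snd.prodMk continuous_fst)
    have hpt : ∀ x y, k r x y + k r y x =
        (- (12 * msig)) * (cr r x y * (kv V x y * (f x * f y))) := by
      intro x y
      have hd := (den_pos h0 h1 x y).ne'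
      have e1 : ⟪V x - V y, (x : E5) - (y : E5)⟫_ℝ = - ⟪V x, (y : E5)⟫_ℝ - ⟪V y, (x : E5)⟫_ℝ := by
        rw [inner_sub_left, inner_sub_right, inner_sub_right]
        have a1 := hVt x
        have a2 := hVt y
        rw [real_inner_comm] at a1 a2
        rw [a1, a2]
        ring
      have e2 : k r x y + k r y x = - (r / (1 - r * ⟪(x : E5), (y : E5)⟫_ℝ)) * (6 * msig) *
          ⟪V x - V y, (x : E5) - (y : E5)⟫_ℝ * (f x * f y) := by
        simp only [hk, hP, hZ, real_inner_smul_left]
        rw [real_inner_comm (x : E5) (y : E5), e1]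
        field_simp
        ring
      have e3 : (1 - ⟪(x : E5), (y : E5)⟫_ℝ) * kv V x y =
          ⟪V x - V y, (x : E5) - (y : E5)⟫_ℝ / 2 := by
        unfold kv
        by_cases hxy : x = y
        · subst hxy
          simp
        · have hn : ‖(x : E5) - (y : E5)‖ ^ 2 ≠ 0 := by
            have : (x : E5) - (y : E5) ≠ 0 := sub_ne_zero.2 fun h => hxy (Subtype.ext h)
            positivity
          have h4 := norm_sub_sq_S4 x y
          rw [mul_div_assoc', div_eq_div_iff hn two_ne_zero, h4]
          ring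
      rw [e2]
      unfold cr
      calc - (r / (1 - r * ⟪(x : E5), (y : E5)⟫_ℝ)) * (6 * msig) *
          ⟪V x - V y, (x : E5) - (y : E5)⟫_ℝ * (f x * f y)
          = (- (12 * msig)) * (r / (1 - r * ⟪(x : E5), (y : E5)⟫_ℝ)) *
            (⟪V x - V y, (x : E5) - (y : E5)⟫_ℝ / 2) * (f x * f y) := by ring
        _ = (- (12 * msig)) * (r / (1 - r * ⟪(x : E5), (y : E5)⟫_ℝ)) *
            ((1 - ⟪(x : E5), (y : E5)⟫_ℝ) * kv V x y) * (f x * f y) := by rw [e3]
        _ = _ := by ring
    have e3 : 2 * ∫ x, ∫ y, k r x y ∂sig ∂sig = ∫ x, ∫ y, (k r x y + k r y x) ∂sig ∂sig := by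
      have i1 : ∀ x, ∫ y, (k r x y + k r y x) ∂sig =
          (∫ y, k r x y ∂sig) + ∫ y, k r y x ∂sig := fun x =>
        integral_add (integrable_cont (cont_slice (f := k r) (hkc r h0 h1) x))
          (integrable_cont (cont_slice (f := fun x y => k r y x) hkc' x))
      simp only [i1]
      rw [integral_add, ← hsw]
      · ring
      · exact (integrable2 (hkc r h0 h1)).integral_prod_left
      · exact (integrable2 hkc').integral_prod_left
    simp only [hpt, integral_const_mul] at e3
    linarith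
  have hLim : Tendsto (fun r => ∫ x, ∫ y, k r x y ∂sig ∂sig) (𝓝[<] 1)
      (𝓝 ((- (6 * msig)) * ∫ x, ∫ y, kv V x y * (f x * f y) ∂sig ∂sig)) := by
    refine (hC.const_mul (- (6 * msig))).congr' ?_
    filter_upwards [ev_pos] with r hr
    exact (hrel r hr.1 hr.2).symm
  have hU := tendsto_nhds_unique hT hLim
  have hLi : ∫ x, 6 * (msig * dd u x (Z x)) ∂sig = 6 * msig * ∫ x, dd u x (Z x) ∂sig := by
    rw [integral_const_mul, integral_const_mul]; ring
  rw [hLi] at hU
  have h6 : (6 * msig) ≠ 0 := by positivity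
  have : 6 * msig * (∫ x, dd u x (Z x) ∂sig) =
      6 * msig * (- ∫ x, ∫ y, kv V x y * (f x * f y) ∂sig ∂sig) := by rw [hU]; ring
  exact mul_left_cancel₀ h6 this

theorem vir (hSMF : SmfStmt) : VirStmt := by
  intro W f V hW h0 hS hV hVt
  obtain ⟨hf, u, hu, hP, hdd⟩ := hSMF W f hW h0 hS
  have hfc := continuous_of_sm hf
  have hkey := vir_key f u V hfc hu hV hVt hP
  have hZs : SmV (fun x => f x • V x) := smV_smul hf hV
  have hZt : ∀ x : S4, ⟪(x : E5), f x • V x⟫_ℝ = 0 := by
    intro x; rw [inner_smul_right, hVt x, mul_zero]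
  have hdiv := integral_dv_tangent hZs hZt
  have hpt : ∀ x, (dlog W x (V x) + dv V x) * f x =
      dv (fun x => f x • V x) x - 4 * dd u x (f x • V x) := by
    intro x
    rw [dv_smul hf hV, hdd x (V x), dd_smul]
    ring
  simp only [hpt]
  rw [integral_sub (integrable_cont (continuous_dv hZs))
    ((integrable_cont (continuous_dd_field hu hZs.continuous)).const_mul 4), integral_const_mul,
    hdiv, hkey]
  unfold kv
  ring

end Pool.Agent.PQP.H83
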